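import Pool.Agent.H74.BTL.Targets

/-!
# MP_60ff71_an, row TRC: the trace property
-/

set_option autoImplicit false

open scoped ENNReal RealInnerProductSpace

universe u

namespace Pool.Agent.H89.BTL

open Pool.Agent.H74.BTL

variable {G : Type u} [Group G] {I J : Type}

lemma summable_mul {α : Type*} (f g : L2 α) : Summable fun x => f x * g x := by
  refine (lp.summable_inner (𝕜 := ℝ) f g).congr fun x => ?_
  simp [mul_comm]

lemma trc_half [Fintype J] (A : L2 (G × I) →L[ℝ] L2 (G × J)) (B : L2 (G × J) →L[ℝ] L2 (G × I))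
    (hB : Eqv B) (i : I) : ⟪dl ((1 : G), i), B (A (dl ((1 : G), i)))⟫ =
      ∑ j, ∑' g : G, (B (dl ((1 : G), j)) : G × I → ℝ) (g⁻¹, i) *
        (A (dl ((1 : G), i)) : G × J → ℝ) (g, j) := by
  have h1 : ∀ (g : G) (j : J), (ContinuousLinearMap.adjoint B (dl ((1 : G), i)) : G × J → ℝ)
      (g, j) = (B (dl ((1 : G), j)) : G × I → ℝ) (g⁻¹, i) := by
    intro g j
    rw [← inner_dl_right (g, j), ContinuousLinearMap.adjoint_inner_left, inner_dl]
    have h2 : dl (g, j) = lt g (dl ((1 : G), j)) := by rw [lt_dl, mul_one]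
    rw [h2, hB, lt_apply, mul_one]
  rw [← ContinuousLinearMap.adjoint_inner_left, inner_eq]
  have hs := summable_mul (ContinuousLinearMap.adjoint B (dl ((1 : G), i))) (A (dl ((1 : G), i)))
  set F : G × J → ℝ := fun p => (ContinuousLinearMap.adjoint B (dl ((1 : G), i)) : G × J → ℝ) p *
    (A (dl ((1 : G), i)) : G × J → ℝ) p with hF
  have hs' : Summable fun q : J × G => F (q.2, q.1) := (Equiv.prodComm J G).summable_iff.2 hs
  have e1 : ∑' p, F p = ∑' q : J × G, F (q.2, q.1) := ((Equiv.prodComm J G).tsum_eq F).symm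
  change ∑' p, F p = _
  rw [e1, hs'.tsum_prod' fun j => hs'.prod_factor j, tsum_fintype]
  refine Finset.sum_congr rfl fun j _ => tsum_congr fun g => ?_
  rw [hF]
  dsimp only
  rw [h1]

theorem pf_TRC : T_TRC.{u} := by
  intro G _ I J _ _ A B hA hB
  have h1 : ∀ i, ⟪dl ((1 : G), i), B (A (dl ((1 : G), i)))⟫ =
      ∑ j, ∑' g : G, (B (dl ((1 : G), j)) : G × I → ℝ) (g⁻¹, i) *
        (A (dl ((1 : G), i)) : G × J → ℝ) (g, j) := fun i => trc_half A B hB i
  have h2 : ∀ j, ⟪dl ((1 : G), j), A (B (dl ((1 : G), j)))⟫ =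
      ∑ i, ∑' g : G, (A (dl ((1 : G), i)) : G × J → ℝ) (g⁻¹, j) *
        (B (dl ((1 : G), j)) : G × I → ℝ) (g, i) := fun j => trc_half B A hA j
  rw [Finset.sum_congr rfl fun i _ => h1 i, Finset.sum_congr rfl fun j _ => h2 j,
    Finset.sum_comm]
  refine Finset.sum_congr rfl fun j _ => Finset.sum_congr rfl fun i _ => ?_
  rw [← (Equiv.inv G).tsum_eq]
  refine tsum_congr fun g => ?_
  rw [Equiv.inv_apply, inv_inv, mul_comm]

end Pool.Agent.H89.BTL
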